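import Pool.Agent.E8helper93.LS.Fin

/-!
# Density thresholds forcing unbounded representation counts: residues modulo small moduli

`rep A n` is the number of ordered pairs of elements of `A` with sum `n`.

Let `m 0, m 1, …` be pairwise coprime, `C j` a finite set of residues modulo `m j`,
`σ(k) = ∑_{j < k} √(|C j + C j| / m j)` where `C j + C j` is taken modulo `m j`, and `h_k(a)` the
number of `j < k` with `a mod m j ∈ C j`. The pair `(k, N)` is admissible if
`m 0 ⋯ m (k - 1) ≤ N`, or if all `C j` are contained in `{0}`. Let `r j` be prime to `m j ≥ 2`.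

1. If `rep A ≤ R`, then the sum of `(1 + t) ^ h_k(a)` over `a ∈ A`, `a ≤ N`, is at most
   `√(3 R N) ∏_{j < k} (1 + t √(|C j + C j| / m j))`.
2. If `rep A ≤ R`, then at most `K √(R N) exp (- κ σ(u))` of the elements `a ≤ N` of `A` satisfy
   `h_k(a) ≥ (1 + δ) σ(k)` for some `k ≥ u`, and for at most `K √(R N) exp (- κ u)` of them the
   points `r j a / m j`, `j < k`, have discrepancy at least `δ` modulo one for some `k ≥ u` with
   `m 0 ⋯ m (k - 1) ≤ N`; `K` and `κ` depend only on `δ`.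
3. Call `n` exceptional if `h_k(n) ≥ (1 + δ) σ(k)` for some `k ≥ u(n)` (`n` is rich) or the points
   `r j n / m j`, `j < k`, have discrepancy at least `δ` for some `k ≥ u(n)` (`n` is irregular). If
   `0 < g(N) ≤ N ^ (1 / 5)` and `g(N) = o(exp (κ σ(u(√N))))`, then `g` forces unbounded
   representations inside the class of all sets of exceptional integers; the density condition is
   only needed for infinitely many `N`.
4. Such a `g` forces unbounded representations for all sets if and only if it does so for the sets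
   without exceptional elements.
5. For every sequence of such systems with `σ → ∞` and every `u → ∞`, Q1 has a positive answer if
   and only if it has one for the sets which have, for every system of the sequence and every
   `δ > 0`, only finitely many exceptional elements.

Examples. The `m j` are the primes and `C j = {0}`: the elements of `A` have few small prime
factors. The `m j` are the primes and `r j = 1`: the fractions `a / p`, `p ≤ y`, are uniformly
distributed modulo one, where `y` is at most about `log a`. If all residues belong to `C j`, then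
`σ(k) = k` and there are no rich integers (if `u ≥ 1`); then `g` may be as large as `exp (κ u(√N))`,
for instance `N ^ (c / log log N)`.

Method. For the first part `(1 + t) ^ h_k(a)` is a sum over the sets `T` of indices `j < k` with
`a mod m j ∈ C j` for all `j ∈ T`, and the number of elements of `A` with this property is
estimated by means of the sums of two such elements, which lie in few residue classes modulo
`∏_{j ∈ T} m j`. For the discrepancy a Riesz product over the coprime moduli is evaluated at the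
sums of two irregular elements.
-/

set_option autoImplicit false

namespace Pool.Agent.Results.MP_491344_nt.LocalStatisticsH93

open Filter

/-- The number of ordered pairs of elements of `A` with sum `n`. -/
noncomputable def rep (A : Set ℕ) (n : ℕ) : ℕ :=
  {p : ℕ × ℕ | p.1 ∈ A ∧ p.2 ∈ A ∧ p.1 + p.2 = n}.ncard

/-- The moduli are positive and pairwise coprime. -/
def Moduli (m : ℕ → ℕ) : Prop := (∀ j, 0 < m j) ∧ ∀ i j, i ≠ j → Nat.Coprime (m i) (m j)

/-- The moduli are at least `2`, and `r j` is prime to `m j`. -/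
def Cop (m : ℕ → ℕ) (r : ℕ → ℤ) : Prop := ∀ j, 2 ≤ m j ∧ IsCoprime (r j) (m j : ℤ)

/-- The residues modulo `m j` of the sums of two elements of `C j`. -/
def dbl (m : ℕ → ℕ) (C : ℕ → Finset ℕ) (j : ℕ) : Finset ℕ :=
  (C j ×ˢ C j).image (fun x => (x.1 + x.2) % m j)

/-- The number of `j < k` with `a mod m j ∈ C j`. -/
noncomputable def hits (m : ℕ → ℕ) (C : ℕ → Finset ℕ) (k a : ℕ) : ℕ :=
  ((Finset.range k).filter (fun j => a % m j ∈ C j)).card

/-- The sum of `√(|C j + C j| / m j)` over `j < k`. -/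
noncomputable def sig (m : ℕ → ℕ) (C : ℕ → Finset ℕ) (k : ℕ) : ℝ :=
  ∑ j ∈ Finset.range k, √((dbl m C j).card / m j)

/-- The product of the first `k` moduli is at most `N`, or all sets `C j` are contained in `{0}`. -/
def Adm (m : ℕ → ℕ) (C : ℕ → Finset ℕ) (k N : ℕ) : Prop :=
  ∏ j ∈ Finset.range k, m j ≤ N ∨ ∀ j, C j ⊆ {0}

/-- The number of `i ∈ s` for which the fractional part of `y i` lies in `[α, β)`. -/
noncomputable def cnt {ι : Type} (s : Finset ι) (y : ι → ℝ) (α β : ℝ) : ℕ :=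
  (s.filter (fun i => α ≤ Int.fract (y i) ∧ Int.fract (y i) < β)).card

/-- The points `y i` (`i ∈ s`) have discrepancy at least `ε` modulo one: the proportion of the
`i ∈ s` for which the fractional part of `y i` lies in some interval `[α, β) ⊆ [0, 1)` differs
from the length `β - α` by at least `ε`. -/
def Uneven {ι : Type} (ε : ℝ) (s : Finset ι) (y : ι → ℝ) : Prop :=
  ∃ α β : ℝ, 0 ≤ α ∧ α ≤ β ∧ β ≤ 1 ∧ ε * s.card ≤ |(cnt s y α β : ℝ) - (β - α) * s.card|

/-- `n` is rich: for some admissible `k ≥ u n` at least `(1 + δ) sig m C k` of the indices `j < k`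
satisfy `n mod m j ∈ C j`. -/
def Rich (m : ℕ → ℕ) (C : ℕ → Finset ℕ) (u : ℕ → ℕ) (δ : ℝ) (n : ℕ) : Prop :=
  ∃ k, u n ≤ k ∧ Adm m C k n ∧ (1 + δ) * sig m C k ≤ hits m C k n

/-- `n` is irregular: for some `k ≥ u n` such that the product of the first `k` moduli is at most
`n` the points `r j n / m j`, `j < k`, have discrepancy at least `ε`. -/
def Irr (m : ℕ → ℕ) (r : ℕ → ℤ) (u : ℕ → ℕ) (ε : ℝ) (n : ℕ) : Prop :=
  ∃ k, u n ≤ k ∧ ∏ j ∈ Finset.range k, m j ≤ n ∧
    Uneven ε (Finset.range k) (fun j => (r j : ℝ) / m j * n)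

/-- `g` forces unbounded representations inside the class `P` of sets of natural numbers. -/
def ForcesIn (P : Set ℕ → Prop) (g : ℕ → ℝ) : Prop :=
  ∀ A : Set ℕ, P A →
    (∃ C : ℝ, 0 < C ∧ ∀ᶠ N : ℕ in atTop, √(N : ℝ) / g N ≤ C * ((A ∩ Set.Icc 1 N).ncard : ℝ)) →
    ∀ K : ℕ, ∃ m, K ≤ rep A m

/-- For every system `(m i, C i, r i)` and every `δ > 0` only finitely many elements of `A` are
rich or irregular. -/
def Typ (m : ℕ → ℕ → ℕ) (C : ℕ → ℕ → Finset ℕ) (r : ℕ → ℕ → ℤ) (u : ℕ → ℕ) (A : Set ℕ) : Prop :=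
  ∀ i, ∀ δ : ℝ, 0 < δ →
    {a | a ∈ A ∧ (Rich (m i) (C i) u δ a ∨ Irr (m i) (r i) u δ a)}.Finite

/-- **Residues of the elements of a set with bounded representation function.** -/
theorem result :
    -- 1. moments
    (∀ (m : ℕ → ℕ) (C : ℕ → Finset ℕ), Moduli m → ∀ (A : Set ℕ) (R N k : ℕ),
      (∀ n, rep A n ≤ R) → Adm m C k N → ∀ F : Finset ℕ, (∀ a ∈ F, a ∈ A ∧ 1 ≤ a ∧ a ≤ N) →
      ∀ t : ℝ, 0 ≤ t → ∑ a ∈ F, (1 + t) ^ hits m C k a ≤
        √(3 * R * N) * ∏ j ∈ Finset.range k, (1 + t * √((dbl m C j).card / m j))) ∧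
    (∀ δ : ℝ, 0 < δ → ∃ κ : ℝ, 0 < κ ∧
      -- 2. the number of exceptional elements
      (∃ K : ℝ, 0 < K ∧
        (∀ (m : ℕ → ℕ) (C : ℕ → Finset ℕ), Moduli m → ∀ (A : Set ℕ) (R N u : ℕ),
          (∀ n, rep A n ≤ R) →
          (({a | a ∈ A ∧ ∃ k, u ≤ k ∧ Adm m C k N ∧ (1 + δ) * sig m C k ≤ hits m C k a} ∩
            Set.Icc 1 N).ncard : ℝ) ≤ K * √(R * N) * Real.exp (-(κ * sig m C u))) ∧
        ∀ (m : ℕ → ℕ) (r : ℕ → ℤ), Moduli m → Cop m r → ∀ (A : Set ℕ) (R N u : ℕ),
          (∀ n, rep A n ≤ R) →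
          (({a | a ∈ A ∧ ∃ k, u ≤ k ∧ ∏ j ∈ Finset.range k, m j ≤ N ∧
            Uneven δ (Finset.range k) (fun j => (r j : ℝ) / m j * a)} ∩
            Set.Icc 1 N).ncard : ℝ) ≤ K * √(R * N) * Real.exp (-(κ * u))) ∧
      ∀ (m : ℕ → ℕ) (C : ℕ → Finset ℕ) (r : ℕ → ℤ), Moduli m → Cop m r → ∀ u : ℕ → ℕ,
        Monotone u → ∀ g : ℕ → ℝ, (∀ᶠ N : ℕ in atTop, 0 < g N ∧ g N ≤ (N : ℝ) ^ (1 / 5 : ℝ)) →
        Tendsto (fun N : ℕ => g N * Real.exp (-(κ * sig m C (u (Nat.sqrt N))))) atTop (nhds 0) →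
        -- 3. thresholds for sets of exceptional integers
        (∀ A : Set ℕ, (∀ a ∈ A, Rich m C u δ a ∨ Irr m r u δ a) →
          (∃ c : ℝ, ∃ᶠ N : ℕ in atTop, √(N : ℝ) / g N ≤ c * ((A ∩ Set.Icc 1 N).ncard : ℝ)) →
          ∀ K : ℕ, ∃ m, K ≤ rep A m) ∧
        -- 4. exceptional elements do not matter
        (ForcesIn (fun _ => True) g ↔
          ForcesIn (fun A => ∀ a ∈ A, ¬ (Rich m C u δ a ∨ Irr m r u δ a)) g)) ∧
    -- 5. reduction of Q1 to typical sets
    (∀ (m : ℕ → ℕ → ℕ) (C : ℕ → ℕ → Finset ℕ) (r : ℕ → ℕ → ℤ), (∀ i, Moduli (m i)) →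
      (∀ i, Cop (m i) (r i)) → (∀ i, Tendsto (sig (m i) (C i)) atTop atTop) →
      ∀ u : ℕ → ℕ, Monotone u → Tendsto u atTop atTop →
      ((∃ g : ℕ → ℝ, Tendsto g atTop atTop ∧ ForcesIn (fun _ => True) g) ↔
        ∃ g : ℕ → ℝ, Tendsto g atTop atTop ∧ ForcesIn (Typ m C r u) g)) := by
  refine ⟨?_, ?_, ?_⟩
  · intro m C hm A R N k hR hk F hF t ht
    exact Pool.Agent.E8helper93.LS.moment_fix (A := A) (R := R) (N := N) (k := k) hm C hR hk hF ht
  · intro δ hδ
    exact Pool.Agent.E8helper93.LS.thresholds hδ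
  · intro m C r hm hr hC u hu hu'
    exact Pool.Agent.E8helper93.LS.reduce_typ hm hr hC hu hu'

end Pool.Agent.Results.MP_491344_nt.LocalStatisticsH93
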