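import Pool.Agent.E8helper84.SM.SM11

/-!
# Density thresholds after small random perturbations

`rep A n` is the number of ordered pairs of elements of `A` with sum `n`, `count A N` the number of
elements of `A` in `[1, N]`. Let `h : ℕ → ℕ` be nondecreasing and unbounded (arbitrarily slowly
growing). Every `a ∈ A` is moved to `a + ε a`, where the `ε a` are independent random variables with
the following property (`Pert`): for every `δ > 0` and all large `a` each of the values `0 ≤ i < h a`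
is taken with probability at least `a ^ (-δ)`. (For example `ε a` is uniformly distributed on
`{0, …, h a}`, if `h a = a ^ o(1)`. Almost all elements may also stay where they are: it is
enough that `a` is moved with probability `a ^ (-o(1))`.) The perturbed set is `shift ε A`.

1. Let `g (N) ^ 2 = o (h (N ^ τ))` for some `τ < 1 / 2`, and let `𝒞` be a class of sets with at most
   `exp (N ^ (1 / 2 - κ))` different traces `A ∩ [1, N]`, for some `κ > 0` and all large `N` (for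
   example a single set). Almost surely all `A ∈ 𝒞` have the following property: if
   `g N * count A N ≥ c √N` for arbitrarily large `N`, then the representation function of the
   perturbed set is unbounded; if this holds for all large `N`, then for all `k` and all large `N`
   some `n ≤ 4 N` has `k` representations.
2. So the answer to Q1 is positive for perturbed sets: for every `h` as above there is `g → ∞` such
   that for every set `A` with `|A ∩ [1, N]| ≫ √N / g (N)` almost every perturbed set has an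
   unbounded representation function.
3. If `h` varies slowly (`h (N ^ 2) ≤ K h (N)`) and `ε a ≤ h a`, then the functions `g` with this
   property for all sets `A` with `g N * count A N ≥ c √N` for arbitrarily large `N` are exactly the
   functions with `g (N) ^ 2 = o (h (N))`.
4. Quantitative form: if `ε a` takes the values `0 ≤ i < h a` with probability at least
   `1 / (h a + 1)` (uniform distribution) and `g N * count A N ≥ c √N` for all large `N`, then almost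
   surely for all large `N` some `n ≤ 4 N` has `k (N)` representations, for every function `k` with
   `48 k (N) g (N) ≤ c √(h (N ^ (1 / 3)))` and `16 k (N) log (h (N) + 1) ≤ log N`. (For example
   `k (N) = c' log N / log log N`, if `g` is bounded and `h (N) = (log N) ^ 2`.)

Method: a set of `m` integers up to `N` with `m² h ≥ C k² N` contains many disjoint systems of `k`
disjoint pairs with sums in an interval of length `h`; independently of each other, each of these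
systems is moved to `k` pairs with the same sum with probability at least `N ^ (-o(1))`. In 3. the
counterexamples are made of dilated Sidon sets.
-/

set_option autoImplicit false

namespace Pool.Agent.Results.MP_491344_nt.RandomPerturbationsH84

open Filter MeasureTheory ProbabilityTheory Pool.Agent.E8helper84.SM

universe u

theorem freq_of_dense {g : ℕ → ℝ} {A : Set ℕ} (hg : ∀ᶠ N in atTop, 0 < g N)
    (h : ∃ C : ℝ, 0 < C ∧ ∀ᶠ N : ℕ in atTop, Real.sqrt N / g N ≤ C * count A N) :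
    ∃ c : ℝ, 0 < c ∧ ∀ᶠ N : ℕ in atTop, c * Real.sqrt N ≤ g N * count A N := by
  obtain ⟨C, hC, hN⟩ := h
  refine ⟨1 / C, by positivity, ?_⟩
  filter_upwards [hN, hg] with N h1 h2
  rw [div_le_iff₀ h2] at h1
  rw [one_div, inv_mul_le_iff₀ hC]
  linarith

/-- The function `g` for the second part. -/
theorem exists_g {h : ℕ → ℕ} (hh : Tendsto h atTop atTop) :
    ∃ g : ℕ → ℝ, Tendsto g atTop atTop ∧
      ∀ C : ℝ, ∀ᶠ N : ℕ in atTop, C * g N ^ 2 ≤ h ⌊(N : ℝ) ^ ((1 : ℝ) / 3)⌋₊ := by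
  have hlim : Tendsto (fun N : ℕ => ((h ⌊(N : ℝ) ^ ((1 : ℝ) / 3)⌋₊ : ℕ) : ℝ)) atTop atTop :=
    tendsto_natCast_atTop_atTop.comp (hh.comp (floor_tendsto (by norm_num)))
  refine ⟨fun N => Real.sqrt (Real.sqrt (h ⌊(N : ℝ) ^ ((1 : ℝ) / 3)⌋₊)),
    Real.tendsto_sqrt_atTop.comp (Real.tendsto_sqrt_atTop.comp hlim), fun C => ?_⟩
  filter_upwards [(Real.tendsto_sqrt_atTop.comp hlim).eventually_ge_atTop C] with N hN
  simp only [Function.comp_apply] at hN
  rw [Real.sq_sqrt (Real.sqrt_nonneg _)]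
  calc C * Real.sqrt (h ⌊(N : ℝ) ^ ((1 : ℝ) / 3)⌋₊)
      ≤ Real.sqrt (h ⌊(N : ℝ) ^ ((1 : ℝ) / 3)⌋₊) * Real.sqrt (h ⌊(N : ℝ) ^ ((1 : ℝ) / 3)⌋₊) :=
        mul_le_mul_of_nonneg_right hN (Real.sqrt_nonneg _)
    _ = _ := Real.mul_self_sqrt (Nat.cast_nonneg _)

/-- **Thresholds for randomly perturbed sets.** -/
theorem result (h : ℕ → ℕ) (hmono : Monotone h) (hlim : Tendsto h atTop atTop) :
    -- 1. all sets of a class with few traces
    (∀ (Ω : Type u) [MeasurableSpace Ω] (μ : Measure Ω) [IsProbabilityMeasure μ]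
      (ε : ℕ → Ω → ℕ), Pert μ ε h → ∀ (τ : ℝ) (g : ℕ → ℝ), 0 < τ → τ < 1 / 2 →
      (∀ C : ℝ, ∀ᶠ N : ℕ in atTop, C * g N ^ 2 ≤ h ⌊(N : ℝ) ^ τ⌋₊) →
      ∀ (𝒞 : Set (Set ℕ)) (κ : ℝ), 0 < κ →
      (∀ᶠ N : ℕ in atTop, (((fun A : Set ℕ => A ∩ Set.Icc 1 N) '' 𝒞).ncard : ℝ) ≤
        Real.exp ((N : ℝ) ^ (1 / 2 - κ))) →
      ∀ᵐ ω ∂μ, ∀ A ∈ 𝒞, ∀ c : ℝ, 0 < c →
        ((∃ᶠ N : ℕ in atTop, c * Real.sqrt N ≤ g N * count A N) →
          ∀ k, ∃ n, k ≤ rep (shift (fun a => ε a ω) A) n) ∧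
        ((∀ᶠ N : ℕ in atTop, c * Real.sqrt N ≤ g N * count A N) →
          ∀ k, ∀ᶠ N : ℕ in atTop, ∃ n ≤ 4 * N, k ≤ rep (shift (fun a => ε a ω) A) n)) ∧
    -- 2. some `g → ∞` forces unbounded representations for perturbed sets
    (∃ g : ℕ → ℝ, Tendsto g atTop atTop ∧
      ∀ (Ω : Type u) [MeasurableSpace Ω] (μ : Measure Ω) [IsProbabilityMeasure μ]
        (ε : ℕ → Ω → ℕ), Pert μ ε h → ∀ A : Set ℕ,
        (∃ C : ℝ, 0 < C ∧ ∀ᶠ N : ℕ in atTop, Real.sqrt N / g N ≤ C * count A N) →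
        ∀ᵐ ω ∂μ, ∀ k, ∃ n, k ≤ rep (shift (fun a => ε a ω) A) n) ∧
    -- 3. the exact threshold, if `h` varies slowly
    (SlowVar h → ∀ (Ω : Type u) [MeasurableSpace Ω] (μ : Measure Ω) [IsProbabilityMeasure μ]
      (ε : ℕ → Ω → ℕ), Pert μ ε h → (∀ a ω, ε a ω ≤ h a) →
      ∀ g : ℕ → ℝ, (∀ᶠ N in atTop, 0 < g N) →
      ((∀ A : Set ℕ, (∃ c : ℝ, 0 < c ∧ ∃ᶠ N : ℕ in atTop, c * Real.sqrt N ≤ g N * count A N) →
          ∀ᵐ ω ∂μ, ∀ k, ∃ n, k ≤ rep (shift (fun a => ε a ω) A) n) ↔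
        ∀ C : ℝ, ∀ᶠ N : ℕ in atTop, C * g N ^ 2 ≤ h N)) ∧
    -- 4. quantitative form for uniformly distributed perturbations
    (∀ (Ω : Type u) [MeasurableSpace Ω] (μ : Measure Ω) [IsProbabilityMeasure μ]
      (ε : ℕ → Ω → ℕ), (∀ a, Measurable (ε a)) → iIndepFun ε μ →
      (∀ᶠ a in atTop, ∀ i < h a, 1 / ((h a : ℝ) + 1) ≤ μ.real {ω | ε a ω = i}) →
      ∀ (g : ℕ → ℝ) (k : ℕ → ℕ) (c : ℝ) (A : Set ℕ), 0 < c →
      (∀ᶠ N : ℕ in atTop, 48 * k N * g N ≤ c * Real.sqrt (h ⌊(N : ℝ) ^ ((1 : ℝ) / 3)⌋₊)) →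
      (∀ᶠ N : ℕ in atTop, 16 * k N * Real.log (h N + 1) ≤ Real.log N) →
      (∀ᶠ N : ℕ in atTop, c * Real.sqrt N ≤ g N * count A N) →
      ∀ᵐ ω ∂μ, ∀ᶠ N : ℕ in atTop, ∃ n ≤ 4 * N, k N ≤ rep (shift (fun a => ε a ω) A) n) := by
  have hfl2 : ∀ {τ : ℝ}, 0 < τ → ∀ᶠ N : ℕ in atTop, 2 ≤ h ⌊(N : ℝ) ^ τ⌋₊ := fun hτ =>
    (hlim.comp (floor_tendsto hτ)).eventually_ge_atTop 2
  have part1 : ∀ (Ω : Type u) [MeasurableSpace Ω] (μ : Measure Ω) [IsProbabilityMeasure μ]
      (ε : ℕ → Ω → ℕ), Pert μ ε h → ∀ (τ : ℝ) (g : ℕ → ℝ), 0 < τ → τ < 1 / 2 →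
      (∀ C : ℝ, ∀ᶠ N : ℕ in atTop, C * g N ^ 2 ≤ h ⌊(N : ℝ) ^ τ⌋₊) →
      ∀ (𝒞 : Set (Set ℕ)) (κ : ℝ), 0 < κ →
      (∀ᶠ N : ℕ in atTop, (((fun A : Set ℕ => A ∩ Set.Icc 1 N) '' 𝒞).ncard : ℝ) ≤
        Real.exp ((N : ℝ) ^ (1 / 2 - κ))) →
      ∀ᵐ ω ∂μ, ∀ A ∈ 𝒞, ∀ c : ℝ, 0 < c →
        ((∃ᶠ N : ℕ in atTop, c * Real.sqrt N ≤ g N * count A N) →
          ∀ k, ∃ n, k ≤ rep (shift (fun a => ε a ω) A) n) ∧
        ((∀ᶠ N : ℕ in atTop, c * Real.sqrt N ≤ g N * count A N) →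
          ∀ k, ∀ᶠ N : ℕ in atTop, ∃ n ≤ 4 * N, k ≤ rep (shift (fun a => ε a ω) A) n) := by
    intro Ω _ μ _ ε hP τ g hτ0 hτ hg 𝒞 κ hκ hC
    exact ae_class hτ0.le hτ (hP.perturbs hmono hτ0) (hfl2 hτ0) hg hκ 𝒞 hC
  have single : ∀ (Ω : Type u) [MeasurableSpace Ω] (μ : Measure Ω) [IsProbabilityMeasure μ]
      (ε : ℕ → Ω → ℕ), Pert μ ε h → ∀ g : ℕ → ℝ,
      (∀ C : ℝ, ∀ᶠ N : ℕ in atTop, C * g N ^ 2 ≤ h ⌊(N : ℝ) ^ ((1 : ℝ) / 3)⌋₊) → ∀ A : Set ℕ,
      (∃ c : ℝ, 0 < c ∧ ∃ᶠ N : ℕ in atTop, c * Real.sqrt N ≤ g N * count A N) →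
      ∀ᵐ ω ∂μ, ∀ k, ∃ n, k ≤ rep (shift (fun a => ε a ω) A) n := by
    intro Ω _ μ _ ε hP g hg A hA
    obtain ⟨c, hc, hf⟩ := hA
    have h1 := part1 Ω μ ε hP (1 / 3) g (by norm_num) (by norm_num) hg {A} (1 / 4) (by norm_num)
      (Eventually.of_forall fun N => by
        rw [Set.image_singleton, Set.ncard_singleton, Nat.cast_one]
        exact Real.one_le_exp (Real.rpow_nonneg (Nat.cast_nonneg N) _))
    filter_upwards [h1] with ω hω
    exact (hω A (Set.mem_singleton A) c hc).1 hf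
  refine ⟨part1, ?_, ?_, fun Ω _ μ _ ε h1 h2 h3 g k c A hc h4 h5 h6 =>
    ae_quant h1 h2 hmono hlim h3 hc h4 h5 h6⟩
  · obtain ⟨g, hg1, hg2⟩ := exists_g hlim
    refine ⟨g, hg1, fun Ω _ μ _ ε hP A hA => ?_⟩
    obtain ⟨c, hc, hf⟩ := freq_of_dense (hg1.eventually_gt_atTop 0) hA
    exact single Ω μ ε hP g hg2 A ⟨c, hc, hf.frequently⟩
  · intro hsv Ω _ μ _ ε hP hle g hg
    constructor
    · intro hall
      by_contra hcon
      push Not at hcon
      obtain ⟨C, hC⟩ := hcon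
      have hfr : ∃ᶠ N : ℕ in atTop, (h N : ℝ) ≤ max C 1 * g N ^ 2 := by
        refine hC.mono fun N hN => ?_
        exact hN.le.trans (mul_le_mul_of_nonneg_right (le_max_left _ _) (sq_nonneg _))
      obtain ⟨S, c, hc, -, hS⟩ := sharp hmono (lt_of_lt_of_le one_pos (le_max_right C 1))
        (hlim.eventually_ge_atTop 1) hP.small hg hfr
      have hid : Disp h id := fun a => ⟨Nat.le_add_right _ _, Nat.le_add_right _ _⟩
      have h1 := (hS id hid).1
      rw [Set.image_id] at h1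
      obtain ⟨ω, hω⟩ := (hall S ⟨c, hc, h1⟩).exists
      obtain ⟨n, hn⟩ := hω 3
      have hdisp : Disp h (fun a => a + ε a ω) := by
        intro a
        have := hle a ω
        constructor <;> simp only <;> omega
      have h2 := (hS _ hdisp).2 n
      have h3 : shift (fun a => ε a ω) S = (fun a => a + ε a ω) '' S := rfl
      rw [h3] at hn
      omega
    · intro hlittle A hA
      obtain ⟨K, hK0, hK⟩ := hsv.root hmono
      refine single Ω μ ε hP g (fun C => ?_) A hA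
      filter_upwards [hlittle (C * K), hK] with N h1 h2
      have h3 : (h N : ℝ) ≤ K * h ⌊(N : ℝ) ^ ((1 : ℝ) / 3)⌋₊ := by exact_mod_cast h2
      have h4 : (0 : ℝ) < K := by exact_mod_cast hK0
      have h5 : (K : ℝ) * (C * g N ^ 2) ≤ K * h ⌊(N : ℝ) ^ ((1 : ℝ) / 3)⌋₊ := by linarith
      exact le_of_mul_le_mul_left h5 h4

end Pool.Agent.Results.MP_491344_nt.RandomPerturbationsH84
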