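import Pool.Agent.E8helper84.SM.SM10

/-!
# Density thresholds and permutations of the natural numbers with small displacement

`rep A n` is the number of ordered pairs of elements of `A` with sum `n`, `count A N` the number of
elements of `A` in `[1, N]`. `Forces g S`: every `B ⊆ S` with `g N * count B N ≥ c √N` for some
`c > 0` and arbitrarily large `N` has an unbounded representation function; so Q1 asks whether some
`g → ∞` forces inside the set of all natural numbers (with the weaker requirement that the density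
condition holds for all large `N`).

Let `h : ℕ → ℕ` be nondecreasing and unbounded (arbitrarily slowly growing). `Disp h f` means
`|f n - n| ≤ h n` for all `n`.

1. Let countably many sets `S i` be given. There is a permutation `φ` of `ℕ` with `|φ n - n| ≤ h n`
   such that
   (a) some `g → ∞` forces unbounded representations inside all the sets `φ (S i)`, where `S i` has
   upper Banach density zero (`BanachZero`);
   (b) if `h` varies slowly (`h (N ^ 2) ≤ K h (N)`) and `S i` has at most `C` elements in every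
   interval `[x, x + h x]` (`Sparse C h`), then every subset `B` of `φ (S i)` with a bounded
   representation function satisfies `|B ∩ [1, N]| = O (√(N / h (N)))`.
2. The bound in (b) is sharp. If `h` varies slowly, then the functions `g` such that every set `S`
   which is sparse in this sense has an image `f (S)`, `|f n - n| ≤ h n`, inside which `g` forces
   unbounded representations, are exactly the functions with `g (N) ^ 2 = o (h (N))`.
3. For bounded `h` nothing changes: `rep (f '' A)` is bounded if and only if `rep A` is bounded.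

Method: in 1. consecutive blocks of length `h j + 1` are permuted at random; the probability that a
finite set `T` is contained in the image of `S` is at most the product of the densities of `S` in the
blocks of the elements of `T`. Now the bounds for subsets of random sets with a bounded
representation function (containers; starting result RandomThresholds) can be applied.
-/

set_option autoImplicit false

namespace Pool.Agent.Results.MP_491344_nt.SmallPermutationsH84

open Filter Pool.Agent.E8helper84.SM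

theorem forces_of_bound {h : ℕ → ℕ} (hlim : Tendsto h atTop atTop) {T : Set ℕ}
    (hT : ∀ K, ∃ C' : ℝ, 0 < C' ∧ ∀ B : Set ℕ, B ⊆ T → (∀ n, rep B n ≤ K) →
      ∀ᶠ N : ℕ in atTop, count B N ≤ C' * Real.sqrt (N / h N)) {g : ℕ → ℝ}
    (hg : ∀ C : ℝ, ∀ᶠ N : ℕ in atTop, C * g N ^ 2 ≤ h N) : Forces g T := by
  rintro B hB ⟨c, hc, hf⟩
  by_contra hcon
  push Not at hcon
  obtain ⟨K, hK⟩ := hcon
  obtain ⟨C', hC', h1⟩ := hT K
  obtain ⟨N, h2, h3, h4, h5, h6⟩ := (hf.and_eventually ((h1 B hB fun n => (hK n).le).and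
    ((hg (4 * C' ^ 2 / c ^ 2)).and ((hlim.eventually_ge_atTop 1).and
      (eventually_ge_atTop 1))))).exists
  have hN0 : (0 : ℝ) < N := by exact_mod_cast h6
  have hh0 : (0 : ℝ) < h N := by exact_mod_cast h5
  have hsN : 0 < Real.sqrt N := Real.sqrt_pos.2 hN0
  have hsh : 0 < Real.sqrt (h N) := Real.sqrt_pos.2 hh0
  have hg0 : 0 < g N := by
    by_contra hneg
    push Not at hneg
    have e1 : g N * count B N ≤ 0 :=
      mul_nonpos_of_nonpos_of_nonneg hneg (by unfold count; positivity)
    have e2 : 0 < c * Real.sqrt N := mul_pos hc hsN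
    linarith
  have h7 : c * Real.sqrt N ≤ g N * (C' * Real.sqrt (N / h N)) :=
    h2.trans (mul_le_mul_of_nonneg_left h3 hg0.le)
  rw [Real.sqrt_div hN0.le] at h7
  have h8 : c * Real.sqrt (h N) ≤ g N * C' := by
    have e1 : g N * (C' * (Real.sqrt N / Real.sqrt (h N))) =
        (g N * C') * Real.sqrt N / Real.sqrt (h N) := by ring
    rw [e1, le_div_iff₀ hsh] at h7
    have e2 : (c * Real.sqrt (h N)) * Real.sqrt N ≤ (g N * C') * Real.sqrt N := by linarith
    exact le_of_mul_le_mul_right e2 hsN
  have h9 : (c * Real.sqrt (h N)) ^ 2 ≤ (g N * C') ^ 2 := pow_le_pow_left₀ (by positivity) h8 2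
  rw [mul_pow, Real.sq_sqrt hh0.le] at h9
  have h10 : 4 * C' ^ 2 / c ^ 2 * g N ^ 2 = 4 * (g N * C') ^ 2 / c ^ 2 := by ring
  rw [h10, div_le_iff₀ (by positivity)] at h4
  have h11 : 0 < c ^ 2 * h N := by positivity
  linarith

/-- **Permutations with small displacement.** -/
theorem result :
    -- 1. one permutation for countably many sets
    (∀ h : ℕ → ℕ, Monotone h → Tendsto h atTop atTop → ∀ S : ℕ → Set ℕ,
      ∃ φ : Equiv.Perm ℕ, Disp h φ ∧
        (∃ g : ℕ → ℝ, Tendsto g atTop atTop ∧ ∀ i, BanachZero (S i) → Forces g (φ '' S i)) ∧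
        (SlowVar h → ∀ i, (∃ C, Sparse C h (S i)) → ∀ K, ∃ C' : ℝ, 0 < C' ∧
          ∀ B : Set ℕ, B ⊆ φ '' S i → (∀ n, rep B n ≤ K) →
            ∀ᶠ N : ℕ in atTop, count B N ≤ C' * Real.sqrt (N / h N))) ∧
    -- 2. the exact threshold for sparse sets
    (∀ h : ℕ → ℕ, Monotone h → Tendsto h atTop atTop → SlowVar h → ∀ g : ℕ → ℝ,
      (∀ᶠ N in atTop, 0 < g N) →
      ((∀ S : Set ℕ, (∃ C, Sparse C h S) → ∃ f : ℕ → ℕ, Disp h f ∧ Forces g (f '' S)) ↔
        ∀ C : ℝ, ∀ᶠ N : ℕ in atTop, C * g N ^ 2 ≤ h N)) ∧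
    -- 3. bounded displacement
    (∀ (H : ℕ) (f : ℕ → ℕ), Disp (fun _ => H) f → ∀ A : Set ℕ,
      (∃ K, ∀ n, rep (f '' A) n ≤ K) ↔ ∃ K, ∀ n, rep A n ≤ K) := by
  refine ⟨fun h hm hh S => exists_perm hm hh S, fun h hm hh hsv g hg => ⟨fun hall => ?_,
    fun hlittle S hS => ?_⟩, fun H f hf A => bounded_iff hf⟩
  · by_contra hcon
    push Not at hcon
    obtain ⟨C, hC⟩ := hcon
    have hfr : ∃ᶠ N : ℕ in atTop, (h N : ℝ) ≤ max C 1 * g N ^ 2 := by
      refine hC.mono fun N hN => ?_
      exact hN.le.trans (mul_le_mul_of_nonneg_right (le_max_left _ _) (sq_nonneg _))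
    have hsmall : ∀ K : ℕ, ∀ᶠ N : ℕ in atTop, K * h N ≤ N := by
      intro K
      filter_upwards [hsv.small hm (show (0 : ℝ) < 1 / 2 by norm_num),
        (tendsto_rpow_nat (show (0 : ℝ) < 1 / 2 by norm_num)).eventually_ge_atTop (K : ℝ),
        eventually_ge_atTop 1] with N h1 h2 h3
      have h0 : (0 : ℝ) < N := by exact_mod_cast h3
      have h4 : (K : ℝ) * h N ≤ (N : ℝ) ^ ((1 : ℝ) / 2) * (N : ℝ) ^ ((1 : ℝ) / 2) :=
        mul_le_mul h2 h1 (Nat.cast_nonneg _) (Real.rpow_nonneg h0.le _)
      rw [← Real.rpow_add h0] at h4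
      norm_num at h4
      exact_mod_cast h4
    obtain ⟨S, c, hc, hSp, hS⟩ := sharp hm (lt_of_lt_of_le one_pos (le_max_right C 1))
      (hh.eventually_ge_atTop 1) hsmall hg hfr
    obtain ⟨f, hf, hF⟩ := hall S ⟨1, hSp⟩
    obtain ⟨h1, h2⟩ := hS f hf
    obtain ⟨n, hn⟩ := hF (f '' S) (Set.Subset.refl _) ⟨c, hc, h1⟩ 3
    have h3 := h2 n
    omega
  · obtain ⟨φ, hφ, -, h2⟩ := exists_perm hm hh (fun _ => S)
    exact ⟨φ, hφ, forces_of_bound hh (h2 hsv 0 hS) hlittle⟩

end Pool.Agent.Results.MP_491344_nt.SmallPermutationsH84
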