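import Pool.Agent.E8helper93.SQ.Reduce

/-!
# Density thresholds forcing unbounded representation counts: sets near quadratic progressions

`rep A n` is the number of ordered pairs of elements of `A` with sum `n`.

1. Let `4 c + κ < log (4 / 3)`. For large `n` and every set `S` of at least
   `n ^ (1 - c / log log n)` numbers in `[1, n]` some `m` is `a² + b²` for at least
   `n ^ (κ / log log n)` ordered pairs of elements of `S`.
2. Let `c < log (4 / 3) / 8`. There is `ε > 0` such that for all large `N`, with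
   `L = N ^ (ε / log log N)`: if `A ∩ [1, N]` is covered by at most `L` sets
   `{n : |n - α y²| ≤ L for some y}`, `α ≥ 1 / L`, and has at least `√N / N ^ (c / log log N)`
   elements, then `rep A m ≥ L` for some `m ≤ 2 N`.
3. Thresholds: if `0 < g(N) ≤ N ^ (c / log log N)` for large `N`, where `c < log (4 / 3) / 8`, then
   `g` forces unbounded representations inside the class of all sets `A` contained in a finite
   union of bounded neighbourhoods of quadratic progressions `α y² + β y + γ` (`α > 0`, `γ` real,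
   `β / α` rational); the density condition is only needed for infinitely many `N`.
4. Reduction: such a `g` forces unbounded representations for all sets if and only if it does so for
   the sets `A` which have only finitely many elements in every bounded neighbourhood of every
   quadratic progression with rational coefficients; and Q1 may be restricted to these sets.

The values of `rep` for the set of all squares are themselves at most `N ^ (O(1) / log log N)`.

Method. Let `P` be a set of primes `p ≡ 1 mod 4` with `∏ p ≤ n`, and `r_p² ≡ -1 mod p`. For a random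
subset `T` of `P` and random signs the pairs `(a, b) ∈ S²` with `a ≡ ± r_p b mod p` for `p ∈ T` are
counted from below by the inequality
`(E √f)² (E √g)² ≤ (1/2) E f E g + (1/2) E [f g]` (a reverse hypercontractive estimate), which
holds on all probability spaces and is stable under products. From above they are counted by the
multiples of `∏_{p ∈ T} p` up to `2 n²`. This gives
`|S|⁴ ≤ 8 n⁴ max_m #{(a, b) ∈ S² : a² + b² = m} ∏_{p ∈ P} (3 / 4 + 1 / (4 p))`.
-/

set_option autoImplicit false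

namespace Pool.Agent.Results.MP_491344_nt.SquaresH93

open Filter

/-- The number of ordered pairs of elements of `A` with sum `n`. -/
noncomputable def rep (A : Set ℕ) (n : ℕ) : ℕ :=
  {p : ℕ × ℕ | p.1 ∈ A ∧ p.2 ∈ A ∧ p.1 + p.2 = n}.ncard

/-- `A ∩ [1, N]` is covered by at most `L` sets `{n : |n - α y²| ≤ L for some natural y}` with
real numbers `α ≥ 1 / L`. -/
def Covered (A : Set ℕ) (N : ℕ) (L : ℝ) : Prop :=
  ∃ T : Finset ℝ, (T.card : ℝ) ≤ L ∧ (∀ α ∈ T, 1 / L ≤ α) ∧
    ∀ n ∈ A, 1 ≤ n → n ≤ N → ∃ α ∈ T, ∃ y : ℕ, |(n : ℝ) - α * (y : ℝ) ^ 2| ≤ L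

/-- `g` forces unbounded representations inside the class `P` of sets of natural numbers. -/
def ForcesIn (P : Set ℕ → Prop) (g : ℕ → ℝ) : Prop :=
  ∀ A : Set ℕ, P A →
    (∃ C : ℝ, 0 < C ∧ ∀ᶠ N : ℕ in atTop, √(N : ℝ) / g N ≤ C * ((A ∩ Set.Icc 1 N).ncard : ℝ)) →
    ∀ K : ℕ, ∃ m, K ≤ rep A m

/-- `A` has only finitely many elements in every bounded neighbourhood of a quadratic progression
with rational coefficients. -/
def ThinOnQuadratics (A : Set ℕ) : Prop :=
  ∀ α β γ w : ℚ, 0 < α →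
    {n ∈ A | ∃ y : ℤ, |(n : ℝ) - ((α : ℝ) * (y : ℝ) ^ 2 + β * y + γ)| ≤ w}.Finite

/-- **Thresholds near quadratic progressions.** -/
theorem result :
    -- 1. sets of squares
    (∀ c κ : ℝ, 4 * c + κ < Real.log (4 / 3) →
      ∃ n₀ : ℕ, ∀ n : ℕ, n₀ ≤ n → ∀ S : Finset ℕ, S ⊆ Finset.Icc 1 n →
        (n : ℝ) ^ (1 - c / Real.log (Real.log n)) ≤ S.card →
        ∃ m : ℕ, (n : ℝ) ^ (κ / Real.log (Real.log n)) ≤
          (((S ×ˢ S).filter (fun x => x.1 ^ 2 + x.2 ^ 2 = m)).card : ℝ)) ∧
    -- 2. sets covered by few neighbourhoods of sets of scaled squares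
    (∀ c : ℝ, c < Real.log (4 / 3) / 8 →
      ∃ ε : ℝ, 0 < ε ∧ ∃ N₀ : ℕ, ∀ N : ℕ, N₀ ≤ N → ∀ A : Set ℕ,
        Covered A N ((N : ℝ) ^ (ε / Real.log (Real.log N))) →
        (N : ℝ) ^ (1 / 2 - c / Real.log (Real.log N)) ≤ ((A ∩ Set.Icc 1 N).ncard : ℝ) →
        ∃ m ≤ 2 * N, (N : ℝ) ^ (ε / Real.log (Real.log N)) ≤ rep A m) ∧
    -- 3. thresholds for finite unions of bounded neighbourhoods of quadratic progressions
    (∀ c : ℝ, c < Real.log (4 / 3) / 8 → ∀ g : ℕ → ℝ,
      (∀ᶠ N : ℕ in atTop, 0 < g N ∧ g N ≤ (N : ℝ) ^ (c / Real.log (Real.log N))) →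
      ∀ (k : ℕ) (α β γ : Fin k → ℝ) (w : ℝ) (A : Set ℕ),
        (∀ i, 0 < α i) → (∀ i, ∃ r : ℚ, β i = r * α i) →
        (∀ n ∈ A, ∃ i, ∃ y : ℤ, |(n : ℝ) - (α i * (y : ℝ) ^ 2 + β i * y + γ i)| ≤ w) →
        (∃ C : ℝ, ∃ᶠ N : ℕ in atTop, √(N : ℝ) / g N ≤ C * ((A ∩ Set.Icc 1 N).ncard : ℝ)) →
        ∀ K : ℕ, ∃ m, K ≤ rep A m) ∧
    -- 4. only sets which are thin on quadratic progressions matter
    (∀ c : ℝ, c < Real.log (4 / 3) / 8 → ∀ g : ℕ → ℝ,
      (∀ᶠ N : ℕ in atTop, 0 < g N ∧ g N ≤ (N : ℝ) ^ (c / Real.log (Real.log N))) →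
      (ForcesIn (fun _ => True) g ↔ ForcesIn ThinOnQuadratics g)) ∧
    ((∃ g : ℕ → ℝ, Tendsto g atTop atTop ∧ ForcesIn (fun _ => True) g) ↔
      ∃ g : ℕ → ℝ, Tendsto g atTop atTop ∧ ForcesIn ThinOnQuadratics g) :=
  ⟨fun c κ h => Pool.Agent.E8helper93.SQ.part_one c κ h,
    fun c hc => Pool.Agent.E8helper93.SQ.part_two c hc,
    fun c hc g hg k α β γ w A hα hβ hA hdens =>
      Pool.Agent.E8helper93.SQ.part_three c hc g hg k α β γ w A hα hβ hA hdens,
    Pool.Agent.E8helper93.SQ.part_four.1, Pool.Agent.E8helper93.SQ.part_four.2⟩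

end Pool.Agent.Results.MP_491344_nt.SquaresH93
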